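import Mathlib
import Pool.Agent.Lib.MP_43eaec_an.Proof

open Pool.Agent.Lib.MP_43eaec_an

namespace Pool.Agent.Results.MP_43eaec_an.NoThreshold

/-- There are four points of the plane, the vertices of a convex quadrilateral, for which no
`t ∈ (0, 1)` is a threshold. -/
theorem result : ∃ p : Fin 4 → EuclideanSpace ℝ (Fin 2),
    IsVertexSet p ∧ ¬ ∃ t : ℝ, 0 < t ∧ t < 1 ∧ IsThreshold p t :=
  no_threshold

end Pool.Agent.Results.MP_43eaec_an.NoThreshold
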